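import Mathlib
import Pool.Agent.Helper18.RL.Goals

set_option autoImplicit false
set_option linter.unusedSectionVars false

/-!
Contraction of one side of a tight cut stays in the class `CS`.
-/

namespace Pool.Agent.Helper70.RL

open Finset Pool.Agent.Helper37.RG3 Pool.Agent.Helper18.RL

variable {V : Type} [Fintype V] [DecidableEq V] {U X : Finset V} {w : V → V → ℕ} {r : ℕ} {y₀ : V}

/-- the edges of the contraction -/
theorem cq_cases (hy : y₀ ∉ X) {u v : V} (h : Adj (cq w X y₀) u v) :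
    (u ∈ X ∧ v ∈ X ∧ Adj w u v) ∨ (u ∈ X ∧ v = y₀ ∧ ∃ b, b ∉ X ∧ Adj w u b) ∨
      (u = y₀ ∧ v ∈ X ∧ ∃ b, b ∉ X ∧ Adj w v b) := by
  have key : ∀ x, bt w {x} Xᶜ ≠ 0 → ∃ b, b ∉ X ∧ Adj w x b := by
    intro x hb
    by_contra hcon
    apply hb
    rw [bt_eq_zero]
    intro a ha b hb'
    rw [mem_singleton] at ha
    subst ha
    by_contra hne
    exact hcon ⟨b, by simpa using hb', hne⟩
  unfold Adj cq at h
  by_cases h1 : u ∈ X ∧ v ∈ X
  · rw [if_pos h1] at h
    exact Or.inl ⟨h1.1, h1.2, h⟩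
  · rw [if_neg h1] at h
    by_cases h2 : u ∈ X ∧ v = y₀
    · rw [if_pos h2] at h
      exact Or.inr (Or.inl ⟨h2.1, h2.2, key u h⟩)
    · rw [if_neg h2] at h
      by_cases h3 : u = y₀ ∧ v ∈ X
      · rw [if_pos h3] at h
        exact Or.inr (Or.inr ⟨h3.1, h3.2, key v h⟩)
      · rw [if_neg h3] at h
        exact absurd rfl h

theorem cq_symm (hs : ∀ u v, w u v = w v u) (hy : y₀ ∉ X) (u v : V)
    (h : Adj (cq w X y₀) u v) : Adj (cq w X y₀) v u := by
  have : cq w X y₀ v u = cq w X y₀ u v := by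
    unfold cq
    by_cases h1 : u ∈ X <;> by_cases h2 : v ∈ X <;> by_cases h3 : u = y₀ <;>
      by_cases h4 : v = y₀ <;> simp [h1, h2, h3, h4, hs u v] <;> simp_all
  unfold Adj at *
  rwa [this]

/-- an odd path through the side of a tight cut -/
theorem odd_path (hT : G_TCM) (hA : G_ALT) (h : RG U w r) {Y : Finset V} (hY : Y ⊆ U)
    (ho : Odd Y.card) (hc : ct w Y = r) {a b x y : V} (ha : a ∈ Y) (hb : b ∈ Y) (hx : x ∉ Y)
    (hy : y ∉ Y) (hax : Adj w a x) (hby : Adj w b y) :
    ∃ Q, Q ⊆ Y ∧ Pth (Adj w) Q b a ∧ Odd Q.card := by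
  by_cases hab : a = b
  · subst hab
    exact ⟨{a}, by simpa using ha, .one a, by simp⟩
  · obtain ⟨m₁, hm₁⟩ := hT V U Y w r h hY ho hc a ha x hx hax
    obtain ⟨m₂, hm₂⟩ := hT V U Y w r h hY ho hc b hb y hy hby
    obtain ⟨Q, hQ, hQs, -, hQc⟩ := hA V (Adj w) (Y \ {a}) (Y \ {b}) m₁ m₂ b a
      (fun x hx => hx (h.irr x)) hm₁ hm₂ (by simp [hb, Ne.symm hab]) (by simp) (Ne.symm hab)
      (by
        intro v hv1 hv2
        simp [hv1, hv2])
      (Or.inr ⟨by simp, by simp [ha, hab]⟩)
    refine ⟨Q, hQs.trans (union_subset sdiff_subset sdiff_subset), hQ, ?_⟩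
    rcases hQc with hQc | hQc
    · simp at hQc
    · exact hQc.2

/-- lifting of a long odd cycle -/
theorem lift (hT : G_TCM) (hA : G_ALT) (h : RG U w r) (hX : X ⊆ U) (hy : y₀ ∉ X)
    (ho : Odd (U \ X).card) (hc : ct w (U \ X) = r) {S : Finset V} (hS : S ⊆ insert y₀ X)
    (hSL : LO (Adj (cq w X y₀)) S) :
    ∃ S', LO (Adj w) S' ∧ S.erase y₀ ⊆ S' ∧ S' ⊆ S.erase y₀ ∪ (U \ X) ∧
      (y₀ ∈ S → (S' ∩ (U \ X)).Nonempty) := by
  by_cases hyS : y₀ ∈ S
  · obtain ⟨ho1, h5, a, b, hp, hba⟩ := hSL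
    obtain ⟨y, hp1, hy1⟩ := rotate hp hba hyS
    clear hp hba
    cases hp1 with
    | one => simp at h5
    | @cons S₀ _ c _ h1 h2 h3 =>
      rw [erase_insert h2]
      have hS₀ : S₀ ⊆ X := by
        intro x hx
        rcases mem_insert.mp (hS (mem_insert_of_mem hx)) with h | h
        · exact absurd (h ▸ hx) h2
        · exact h
      have hpath : Pth (Adj w) S₀ c y := by
        refine h3.mono fun u hu v hv huv => ?_
        rcases cq_cases hy huv with k | k | k
        · exact k.2.2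
        · exact absurd (k.2.1 ▸ hS₀ hv) hy
        · exact absurd (k.1 ▸ hS₀ hu) hy
      obtain ⟨a', ha'X, ha'⟩ : ∃ b, b ∉ X ∧ Adj w c b := by
        rcases cq_cases hy h1 with k | k | k
        · exact absurd k.1 hy
        · exact absurd k.1 hy
        · exact k.2.2
      obtain ⟨b', hb'X, hb'⟩ : ∃ b, b ∉ X ∧ Adj w y b := by
        rcases cq_cases hy hy1 with k | k | k
        · exact absurd k.2.1 hy
        · exact k.2.2
        · exact absurd k.2.1 hy
      have ha'Y : a' ∈ U \ X := mem_sdiff.mpr ⟨h.supp' ha', ha'X⟩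
      have hb'Y : b' ∈ U \ X := mem_sdiff.mpr ⟨h.supp' hb', hb'X⟩
      have hcY : c ∉ U \ X := fun k => (mem_sdiff.mp k).2 (hS₀ h3.left_mem)
      have hyY : y ∉ U \ X := fun k => (mem_sdiff.mp k).2 (hS₀ h3.right_mem)
      obtain ⟨Q, hQY, hQ, hQo⟩ := odd_path hT hA h sdiff_subset ho hc ha'Y hb'Y hcY hyY
        (adj_symm h _ _ ha') (adj_symm h _ _ hb')
      have hd : Disjoint S₀ Q := by
        rw [disjoint_left]
        intro x hx hxQ
        exact (mem_sdiff.mp (hQY hxQ)).2 (hS₀ hx)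
      have hcard : (S₀ ∪ Q).card = S₀.card + Q.card := card_union_of_disjoint hd
      rw [card_insert_of_notMem h2] at ho1 h5
      refine ⟨S₀ ∪ Q, ⟨?_, ?_, c, a', hpath.append hb' hQ hd, adj_symm h _ _ ha'⟩,
        subset_union_left, union_subset_union_right hQY, fun _ => ?_⟩
      · rw [hcard]
        obtain ⟨k, hk⟩ := ho1
        obtain ⟨l, hl⟩ := hQo
        exact ⟨k + l, by omega⟩
      · rw [hcard]
        have := hQo.pos
        omega
      · exact ⟨a', mem_inter.mpr ⟨mem_union_right _ hQ.right_mem, ha'Y⟩⟩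
  · rw [erase_eq_of_notMem hyS]
    refine ⟨S, hSL.mono ?_, Subset.refl _, subset_union_left, fun h => absurd h hyS⟩
    have hSX : S ⊆ X := by
      intro x hx
      rcases mem_insert.mp (hS hx) with h | h
      · exact absurd (h ▸ hx) hyS
      · exact h
    intro u hu v hv huv
    rcases cq_cases hy huv with k | k | k
    · exact k.2.2
    · exact absurd (k.2.1 ▸ hv) hyS
    · exact absurd (k.1 ▸ hu) hyS

/-- the separation, if `y₀` is not on the second cycle -/
theorem sp_pass (hT : G_TCM) (hA : G_ALT) (h : RG U w r) (cn : CN U w) (cs : CS U w)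
    (hX : X ⊆ U) (hy : y₀ ∈ U \ X) (ho : Odd (U \ X).card) (hc : ct w (U \ X) = r)
    {S T : Finset V} (hS : S ⊆ insert y₀ X) (hTX : T ⊆ insert y₀ X) (hyT : y₀ ∉ T)
    (hd : Disjoint S T) (hSL : LO (Adj (cq w X y₀)) S) (hTL : LO (Adj (cq w X y₀)) T) :
    SP (Adj (cq w X y₀)) S T := by
  have hyX : y₀ ∉ X := (mem_sdiff.mp hy).2
  have hTX' : T ⊆ X := by
    intro x hx
    rcases mem_insert.mp (hTX hx) with h | h
    · exact absurd (h ▸ hx) hyT
    · exact h
  have hTL' : LO (Adj w) T := by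
    refine hTL.mono fun u hu v hv huv => ?_
    rcases cq_cases hyX huv with k | k | k
    · exact k.2.2
    · exact absurd (k.2.1 ▸ hv) hyT
    · exact absurd (k.1 ▸ hu) hyT
  obtain ⟨S', hS'L, hS1, hS2, hS3⟩ := lift hT hA h hX hyX ho hc hS hSL
  have hSX : ∀ x ∈ S, x ≠ y₀ → x ∈ X := by
    intro x hx hxy
    rcases mem_insert.mp (hS hx) with h | h
    · exact absurd h hxy
    · exact h
  have hS'U : S' ⊆ U := by
    intro x hx
    rcases mem_union.mp (hS2 hx) with h | h
    · rw [mem_erase] at h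
      exact hX (hSX x h.2 h.1)
    · exact (mem_sdiff.mp h).1
  have hd' : Disjoint S' T := by
    rw [disjoint_left]
    intro x hx hxT
    rcases mem_union.mp (hS2 hx) with h | h
    · exact disjoint_left.mp hd (mem_of_mem_erase h) hxT
    · exact (mem_sdiff.mp h).2 (hTX' hxT)
  obtain ⟨L, Z, hZ, hLZ, hSLZ, hLT, hcl⟩ := cs S' T hS'U (hTX'.trans hX) hd' hS'L hTL'
  have hmem : ∀ x ∈ S, x ≠ y₀ → x ∈ X ∧ (x ∈ L ∨ x ∈ Z) := by
    intro x hx hxy
    exact ⟨hSX x hx hxy, mem_union.mp (hSLZ (hS1 (mem_erase.mpr ⟨hxy, hx⟩)))⟩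
  by_cases hZY : (Z ∩ (U \ X)).Nonempty
  · -- the separator meets the contracted side
    refine ⟨L ∩ X, insert y₀ (Z ∩ X), ?_, ?_, ?_, ?_, ?_⟩
    · refine (card_insert_le _ _).trans ?_
      have hlt : (Z ∩ X).card < Z.card := by
        refine card_lt_card ((ssubset_iff_subset_ne).mpr ⟨inter_subset_left, ?_⟩)
        intro he
        obtain ⟨z, hz⟩ := hZY
        rw [mem_inter, mem_sdiff] at hz
        have := hz.1
        rw [← he, mem_inter] at this
        exact hz.2.2 this.2
      omega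
    · rw [disjoint_insert_right]
      exact ⟨fun k => hyX (mem_inter.mp k).2, hLZ.mono inter_subset_left inter_subset_left⟩
    · intro x hx
      rw [mem_union, mem_insert, mem_inter, mem_inter]
      by_cases hxy : x = y₀
      · exact Or.inr (Or.inl hxy)
      · have := hmem x hx hxy
        tauto
    · exact hLT.mono_left inter_subset_left
    · intro x hx y hxy
      rw [mem_inter] at hx
      rw [mem_union, mem_insert, mem_inter, mem_inter]
      rcases cq_cases hyX hxy with k | k | k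
      · have := mem_union.mp (hcl x hx.1 y k.2.2)
        tauto
      · exact Or.inr (Or.inl k.2.1)
      · exact absurd (k.1 ▸ hx.2) hyX
  · have hZY' : ∀ x ∈ U \ X, x ∉ Z := fun x hx hxZ => hZY ⟨x, mem_inter.mpr ⟨hxZ, hx⟩⟩
    have hcon := con_tight h cn sdiff_subset ho hc
    by_cases hLY : U \ X ⊆ L
    · refine ⟨insert y₀ (L ∩ X), Z ∩ X, (card_le_card inter_subset_left).trans hZ, ?_, ?_, ?_, ?_⟩
      · rw [disjoint_insert_left]
        exact ⟨fun k => hyX (mem_inter.mp k).2, hLZ.mono inter_subset_left inter_subset_left⟩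
      · intro x hx
        rw [mem_union, mem_insert, mem_inter, mem_inter]
        by_cases hxy : x = y₀
        · exact Or.inl (Or.inl hxy)
        · have := hmem x hx hxy
          tauto
      · rw [disjoint_insert_left]
        exact ⟨hyT, hLT.mono_left inter_subset_left⟩
      · intro x hx y hxy
        rw [mem_union, mem_insert, mem_inter, mem_inter]
        rcases cq_cases hyX hxy with k | k | k
        · rcases mem_insert.mp hx with h' | h'
          · exact absurd (h' ▸ k.1) hyX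
          · have := mem_union.mp (hcl x (mem_inter.mp h').1 y k.2.2)
            tauto
        · exact Or.inl (Or.inl k.2.1)
        · obtain ⟨-, hyX', b, hbX, hyb⟩ := k
          have hbL : b ∈ L := hLY (mem_sdiff.mpr ⟨h.supp' hyb, hbX⟩)
          have := mem_union.mp (hcl b hbL y (adj_symm h _ _ hyb))
          tauto
    · have hLY' : ∀ x ∈ U \ X, x ∉ L := by
        intro x hx hxL
        obtain ⟨p, hp, q, hq, hpq⟩ := hcon.2 (L ∩ (U \ X)) inter_subset_right
          ⟨x, mem_inter.mpr ⟨hxL, hx⟩⟩ (fun he => hLY (inter_eq_right.mp he))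
        rw [mem_inter] at hp
        rw [mem_sdiff, mem_inter] at hq
        rcases mem_union.mp (hcl p hp.1 q hpq) with k | k
        · exact hq.2 ⟨k, hq.1⟩
        · exact hZY' q hq.1 k
      have hyS : y₀ ∉ S := by
        intro hyS
        obtain ⟨z, hz⟩ := hS3 hyS
        rw [mem_inter] at hz
        rcases mem_union.mp (hSLZ hz.1) with k | k
        · exact hLY' z hz.2 k
        · exact hZY' z hz.2 k
      refine ⟨L ∩ X, Z ∩ X, (card_le_card inter_subset_left).trans hZ,
        hLZ.mono inter_subset_left inter_subset_left, ?_, hLT.mono_left inter_subset_left, ?_⟩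
      · intro x hx
        rw [mem_union, mem_inter, mem_inter]
        have hxy : x ≠ y₀ := by
          rintro rfl
          exact hyS hx
        have := hmem x hx hxy
        tauto
      · intro x hx y hxy
        rw [mem_inter] at hx
        rw [mem_union, mem_inter, mem_inter]
        rcases cq_cases hyX hxy with k | k | k
        · have := mem_union.mp (hcl x hx.1 y k.2.2)
          tauto
        · exfalso
          obtain ⟨-, -, b, hbX, hxb⟩ := k
          have hbY : b ∈ U \ X := mem_sdiff.mpr ⟨h.supp' hxb, hbX⟩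
          rcases mem_union.mp (hcl x hx.1 b hxb) with k | k
          · exact hLY' b hbY k
          · exact hZY' b hbY k
        · exact absurd (k.1 ▸ hx.2) hyX

/-- **RL-LNT** -/
theorem glnt (hT : G_TCM) (hA : G_ALT) : G_LNT := by
  intro V _ _ U X w r y₀ h hr cn cs hX hoX hcX hy S T hS hTX hd hSL hTL
  have hyX : y₀ ∉ X := (mem_sdiff.mp hy).2
  have hcY : ct w (U \ X) = r := by rw [h.ct_compl hX, hcX]
  have hoY : Odd (U \ X).card := by
    rw [card_sdiff_of_subset hX]
    obtain ⟨k, hk⟩ := h.even_card hr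
    obtain ⟨l, hl⟩ := hoX
    have := card_le_card hX
    exact ⟨k - l - 1, by omega⟩
  by_cases hyT : y₀ ∈ T
  · have hyS : y₀ ∉ S := fun k => disjoint_left.mp hd k hyT
    exact (sp_pass hT hA h cn cs hX hy hoY hcY hTX hS hyS hd.symm hTL hSL).symm
      (cq_symm h.symm hyX)
  · exact sp_pass hT hA h cn cs hX hy hoY hcY hS hTX hyT hd hSL hTL

end Pool.Agent.Helper70.RL
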